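import Pool.Agent.Q166.GeoE

/-!
# MP_7b7a44_co, Q1: the answer is no

The graph `K₃ □ P₅` (15 vertices, 27 edges, planar) is 3-connected, and for every length assignment
`ℓ` it has an `ℓ`-geodesic cycle that is not peripheral.

The definitions (in `Pool.Agent.Q166.GeoA`, `Pool.Agent.Q166.GeoD`):

* `len ℓ p`: sum of `ℓ` over the edges of the walk `p`;
* `IsGeodesicCycle ℓ c`: `c` is a cycle and for all vertices `x, y` on `c` and every `x`-`y` path
  `p` of the graph some `x`-`y` path contained in `c` is not longer than `p`;
* `IsPeripheral c`: `c` is a chordless cycle and the graph induced on the vertices off `c` is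
  (pre)connected, the empty graph allowed;
* `ThreeConnected G`: more than 3 vertices and deleting at most 2 vertices leaves a connected graph;
* `prism`: the graph on `Fin 5 × Fin 3` in which `(i, s)` is adjacent to `(i, t)` for `s ≠ t` and
  to `(i + 1, s)`.

Idea: a shortest odd closed walk (for any `ZMod 2`-labelling of the edges) is a geodesic cycle. If
all geodesic cycles were peripheral, this would make geodesic all 4-cycles between the layers 1, 2
or all 4-cycles between the layers 2, 3; then two consecutive separating triangles cannot both be
non-geodesic without a geodesic 5-cycle having a chord.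
-/

namespace Pool.Agent.Results.MP_7b7a44_co.Disproof

open Pool.Agent.Q166.Geo

theorem result :
    ThreeConnected prism ∧
    ∀ ℓ : Sym2 (Fin 5 × Fin 3) → ℝ, (∀ e ∈ prism.edgeSet, 0 < ℓ e) →
      ∃ (v : Fin 5 × Fin 3) (c : prism.Walk v v), IsGeodesicCycle ℓ c ∧ ¬ IsPeripheral c :=
  ⟨prism_threeConnected, main⟩

end Pool.Agent.Results.MP_7b7a44_co.Disproof
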